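import Mathlib

namespace Pool.Agent.Results.MP_9d2565_co.Q1

open Finset Polynomial

/-- Weight of a permutation of `m + 1` letters: a descent at position `k + 1` gives `lam (k + 1) * t`. -/
noncomputable def w (lam : ℕ → ℝ) {m : ℕ} (π : Equiv.Perm (Fin (m + 1))) : ℝ[X] :=
  ∏ k : Fin m, if π k.succ < π k.castSucc then C (lam (k + 1)) * X else 1

/-- `E lam m` is `e_{m+1}(t)`. -/
noncomputable def E (lam : ℕ → ℝ) (m : ℕ) : ℝ[X] := ∑ π : Equiv.Perm (Fin (m + 1)), w lam π

variable (lam : ℕ → ℝ)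

noncomputable def u : ℕ → ℕ → ℝ[X]
  | 0, j => if j = 0 then 1 else 0
  | m + 1, j => ∑ i ∈ range (m + 1), u m i * if j ≤ i then C (lam (m + 1)) * X else 1

lemma dec (m : ℕ) : ∀ G : ℕ → ℝ[X], ∑ π : Equiv.Perm (Fin (m + 1)), w lam π * G (π (.last m)) =
    ∑ i ∈ range (m + 1), u lam m i * G i := by
  induction m with
  | zero => simp [w, u]
  | succ m ih =>
    intro G
    let a (p : Fin (m + 2) × Equiv.Perm (Fin (m + 1))) : Equiv.Perm (Fin (m + 2)) :=
      finSuccEquivLast.trans (p.2.optionCongr.trans (finSuccEquiv' p.1).symm)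
    have a1 (p) : a p (.last _) = p.1 := by simp [a]
    have a2 (p) (i : Fin (m + 1)) : a p i.castSucc = p.1.succAbove (p.2 i) := by simp [a]
    have b : a.Bijective := (Fintype.bijective_iff_injective_and_card a).2 ⟨fun p q h => by
      have e : p.1 = q.1 := by rw [← a1, h, a1]
      exact Prod.ext e (Equiv.ext fun i => Fin.succAbove_right_injective (p := p.1) (by rw [← a2, h, a2, e])),
      by simp [Fintype.card_perm, Nat.factorial_succ (m + 1)]⟩
    rw [← b.sum_comp, Fintype.sum_prod_type, ← Fin.sum_univ_eq_sum_range fun i => u lam (m + 1) i * G i]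
    refine sum_congr rfl fun j _ => ?_
    rw [u, ← ih, sum_mul]
    refine sum_congr rfl fun σ _ => ?_
    simp only [w, Fin.prod_univ_castSucc, a1, Fin.succ_castSucc, a2, Fin.succ_last, Fin.succAbove_lt_succAbove_iff,
      Fin.lt_succAbove_iff_le_castSucc]
    rfl

lemma Eu (m : ℕ) : E lam m = ∑ i ∈ range (m + 1), u lam m i := by simpa [E] using dec lam m fun _ => 1

lemma uE (m : ℕ) : u lam (m + 1) (m + 1) = E lam m := by
  rw [Eu, u]
  exact sum_congr rfl fun i h => by rw [if_neg (by simpa using h), mul_one]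

noncomputable def W (t : ℝ) (p q : ℝ[X]) : ℝ := p.derivative.eval t * q.eval t - p.eval t * q.derivative.eval t

def P (t : ℝ) (p q : ℝ[X]) : Prop := 0 ≤ W t p q ∧ 0 ≤ W t (X * q) p

lemma Ps {t : ℝ} {f : ℕ → ℝ[X]} {S T : Finset ℕ} (h : ∀ i ∈ S, ∀ j ∈ T, P t (f i) (f j)) :
    P t (∑ i ∈ S, f i) (∑ j ∈ T, f j) := by
  refine sum_induction _ (P t · _) (fun a b p q => ?_) (by simp [P, W]) fun i hi =>
    sum_induction _ (P t _) (fun a b p q => ?_) (by simp [P, W]) (h i hi)
  all_goals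
    simp only [P, W, mul_add, map_add, eval_add] at *
    constructor <;> linarith [p.1, p.2, q.1, q.2]

variable {lam}

lemma step (h : ∀ k ≥ 1, 0 < lam k) (t : ℝ) (m : ℕ) (ih : ∀ j ≤ m, ∀ i ≤ j, P t (u lam m i) (u lam m j)) :
    ∀ k ≤ m + 1, ∀ j ≤ k, P t (u lam (m + 1) j) (u lam (m + 1) k) ∧
      lam (m + 1) * (∑ i ∈ Ico j k, u lam m i).eval t ^ 2 ≤ W t (u lam (m + 1) j) (u lam (m + 1) k) := by
  intro k hk j hj
  have e (j) (a : j ≤ m + 1) : u lam (m + 1) j =
      ∑ i ∈ range j, u lam m i + C (lam (m + 1)) * (X * ∑ i ∈ Ico j (m + 1), u lam m i) := by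
    rw [u, ← sum_range_add_sum_Ico _ a, mul_sum, mul_sum]
    exact congrArg₂ _ (sum_congr rfl fun i h => by rw [if_neg (by simpa using h), mul_one])
      (sum_congr rfl fun i h => by rw [if_pos (mem_Ico.1 h).1]; ring)
  have a := Ps (S := range j) (T := Ico j k) fun a p b q => ih b (by grind) a (by grind)
  have b := Ps (S := Ico j k) (T := Ico k (m + 1)) fun a p b q => ih b (by grind) a (by grind)
  rw [e j (by omega), e k hk, ← sum_range_add_sum_Ico _ hj, ← sum_Ico_consecutive _ hj hk]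
  generalize ∑ i ∈ range j, u lam m i = A, ∑ i ∈ Ico j k, u lam m i = M, ∑ i ∈ Ico k (m + 1), u lam m i = B at *
  have l := (h (m + 1) (by omega)).le
  generalize lam (m + 1) = x at *
  simp only [P, W, derivative_mul, derivative_add, derivative_C, derivative_X, eval_add, eval_mul, eval_X, eval_C,
    eval_one, eval_zero] at *
  have c1 := mul_nonneg l a.2
  have c2 := mul_nonneg (sq_nonneg (x * t)) b.1
  have c3 := mul_nonneg l b.2
  have c4 := mul_nonneg l (sq_nonneg (M.eval t))
  have c5 := mul_nonneg (mul_nonneg l (sq_nonneg t)) (add_nonneg a.1 b.1)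
  have c6 := mul_nonneg (sq_nonneg (x * t)) b.2
  have c7 := sq_nonneg (A.eval t + x * t * B.eval t)
  exact ⟨⟨by linarith [a.1], by linarith [a.2]⟩, by linarith [a.1]⟩

lemma pos (h : ∀ k ≥ 1, 0 < lam k) (t : ℝ) (m : ℕ) : 0 < W t (E lam (m + 1)) (E lam m) := by
  have I (m) : ∀ j ≤ m, ∀ i ≤ j, P t (u lam m i) (u lam m j) := by
    induction m with
    | zero => simp [P, W, u]
    | succ m ih => exact fun k a j b => (step h t m ih k a j b).1
  have K (m j) (a : j ≤ m) : lam (m + 1) * (∑ i ∈ Ico j (m + 1), u lam m i).eval t ^ 2 ≤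
      W t (E lam (m + 1)) (E lam m) := by
    refine (step h t m (I m) _ le_rfl j (by omega)).2.trans ((single_le_sum (s := range (m + 2))
      (f := fun i => W t (u lam (m + 1) i) (u lam (m + 1) (m + 1)))
      (fun i hi => (I _ _ le_rfl i (Nat.lt_succ_iff.1 (mem_range.1 hi))).1) (mem_range.2 (by omega))).trans_eq ?_)
    simp [uE, Eu lam (m + 1), W, sum_mul, eval_finset_sum]
  induction m with
  | zero => exact lt_of_lt_of_le (by simpa [u] using h 1 le_rfl) (K 0 0 le_rfl)
  | succ m ih =>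
    have a := K (m + 1) 0 (by omega)
    have b := K (m + 1) (m + 1) le_rfl
    rw [← range_eq_Ico, ← Eu] at a
    rw [Nat.Ico_succ_singleton, sum_singleton, uE] at b
    have l := h (m + 1 + 1) (by omega)
    by_contra! n
    have z (x : ℝ) (k : lam (m + 1 + 1) * x ^ 2 ≤ 0) : x = 0 := by_contra fun c => by
      have := mul_pos l (sq_pos_of_ne_zero c); linarith
    simp [W, z _ (a.trans n), z _ (b.trans n)] at ih

lemma lead (m : ℕ) : ∀ j, (u lam m j).natDegree ≤ m ∧
    (u lam m j).coeff m = if j = 0 then ∏ k ∈ range m, lam (k + 1) else 0 := by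
  induction m with
  | zero => intro j; by_cases j = 0 <;> simp [u, *]
  | succ m ih =>
    refine fun j => ⟨natDegree_sum_le_of_forall_le _ _ fun i _ => natDegree_mul_le.trans
      (add_le_add (ih i).1 (by split_ifs <;> compute_degree!)), ?_⟩
    rw [u, finset_sum_coeff, sum_eq_single 0]
    · split_ifs with a b b <;> first | omega | skip
      · simp [← mul_assoc, (ih 0).2, prod_range_succ]
      · simpa using coeff_eq_zero_of_natDegree_lt (Nat.lt_succ_of_le (ih 0).1)
    · intro i _ n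
      split_ifs
      · simp [← mul_assoc, (ih i).2, n]
      · simpa using coeff_eq_zero_of_natDegree_lt (Nat.lt_succ_of_le (ih i).1)
    · simp

lemma sg (f : ℕ → ℝ) (x : ℝ) (i : ℕ) (h : ∀ j < i, x < f j) : 0 < (-1) ^ i * ∏ j ∈ range i, (x - f j) := by
  have := prod_pos (s := range i) fun j a => sub_pos.2 (h j (mem_range.1 a))
  rwa [prod_congr rfl fun j _ => (neg_sub x (f j)).symm, prod_neg, card_range] at this

lemma next (h : ∀ k ≥ 1, 0 < lam k) (m : ℕ) (p : ℕ → ℝ) (c : ℝ) (p0 : p 0 = 0) (c0 : 0 < c)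
    (a : ∀ j ≤ m, ∀ i < j, p j < p i) (e : E lam m = C c * ∏ i ∈ range m, (X - C (p (i + 1)))) :
    ∃ g : ℕ → ℝ, (∀ i ≤ m, g i < p i) ∧ (∀ i < m, p (i + 1) < g i) ∧
      ∃ d > 0, E lam (m + 1) = C d * ∏ i ∈ range (m + 1), (X - C (g i)) := by
  have s (i) (hi : i ≤ m) : 0 < (-1) ^ i * (E lam (m + 1)).eval (p i) := by
    rcases i with _ | i
    · simp only [p0, E, w, eval_finset_sum, eval_prod, pow_zero, one_mul]
      exact sum_pos' (fun π _ => prod_nonneg fun k _ => by split_ifs <;> simp)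
        ⟨1, mem_univ _, by simp [Fin.castSucc_lt_succ.not_gt]⟩
    · have := pos h (p (i + 1)) m
      rw [e, ← prod_range_mul_prod_Ico _ hi, prod_range_succ, mul_comm _ (X - _), mul_assoc, mul_left_comm] at this
      simp only [W, derivative_mul (f := X - _), eval_mul, eval_add, eval_sub, eval_X, eval_C, sub_self, eval_prod,
        derivative_X_sub_C, eval_one] at this
      have b := mul_pos (mul_pos c0 (sg (fun j => p (j + 1)) (p (i + 1)) i fun j k => a _ hi _ (by omega)))
        (prod_pos (s := Ico (i + 1) m) fun j k => sub_pos.2 (a (j + 1) (by grind) (i + 1) (by grind)))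
      have := mul_pos this b
      refine pos_of_mul_pos_left (this.trans_eq ?_) (sq_nonneg (c * ((∏ j ∈ range i, (p (i + 1) - p (j + 1))) *
        ∏ j ∈ Ico (i + 1) m, (p (i + 1) - p (j + 1)))))
      ring
  have r (i) (hi : i < m) : ∃ x ∈ Set.Ioo (p (i + 1)) (p i), (E lam (m + 1)).eval x = 0 := by
    have a1 := s i hi.le
    have a2 := s _ hi
    obtain ⟨x, b, c⟩ := intermediate_value_Ioo (a _ hi i (by omega)).le
      (f := fun x => (-1) ^ i * (E lam (m + 1)).eval x) (by fun_prop) ⟨by rw [pow_succ] at a2; linarith, a1⟩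
    exact ⟨x, b, by simpa using c⟩
  choose! g g1 g2 using r
  have l : (E lam (m + 1)).natDegree ≤ m + 1 ∧ 0 < (E lam (m + 1)).coeff (m + 1) := by
    rw [Eu]
    refine ⟨natDegree_sum_le_of_forall_le _ _ fun i _ => (lead _ i).1, ?_⟩
    simpa [(lead _ _).2] using prod_pos fun k _ => h (k + 1) (by omega)
  have ga (i j) (b : i < j) (c : j < m) : g j < g i :=
    ((g1 j c).2.trans_le ((Nat.succ_le_of_lt b).eq_or_lt.elim (fun e => by rw [e]) fun k =>
      (a j c.le _ k).le)).trans (g1 i (by omega)).1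
  obtain ⟨Q, q⟩ : ∏ i ∈ range m, (X - C (g i)) ∣ E lam (m + 1) := by
    refine prod_dvd_of_coprime (fun i a j b n => isCoprime_X_sub_C_of_isUnit_sub (sub_ne_zero.2 ?_).isUnit)
      fun i a => dvd_iff_isRoot.2 (g2 i (mem_range.1 a))
    exact n.lt_or_gt.elim (fun k => (ga i j k (by simpa using b)).ne') fun k => (ga j i k (by simpa using a)).ne
  have mo := monic_prod_of_monic (range m) _ fun i _ => monic_X_sub_C (g i)
  have md : (∏ i ∈ range m, (X - C (g i))).natDegree = m := by simp [natDegree_prod_of_monic, monic_X_sub_C]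
  have Q0 : Q ≠ 0 := by rintro rfl; simp [q] at l
  have Q1 : Q.natDegree ≤ 1 := by have := l.1; rw [q, mo.natDegree_mul' Q0] at this; omega
  have d : 0 < Q.coeff 1 := by
    have := l.2
    rwa [q, coeff_mul_add_eq_of_natDegree_le md.le Q1, (congrArg _ md.symm).trans mo.coeff_natDegree,
      one_mul] at this
  have Qe : Q = C (Q.coeff 1) * (X - C (-Q.coeff 0 / Q.coeff 1)) := by
    rw [mul_sub, ← C_mul, mul_div_cancel₀ _ d.ne', C_neg, sub_neg_eq_add]
    exact eq_X_add_C_of_natDegree_le_one Q1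
  refine ⟨fun i => if i < m then g i else -Q.coeff 0 / Q.coeff 1, fun i hi => ?_, fun i hi => ?_, _, d, ?_⟩
  · beta_reduce
    split_ifs with k
    · exact (g1 i k).2
    obtain rfl : i = m := by omega
    have := s i le_rfl
    rw [q, Qe] at this
    simp only [eval_mul, eval_prod, eval_sub, eval_X, eval_C, ← mul_assoc] at this
    exact sub_pos.1 (pos_of_mul_pos_right this (mul_pos (sg g _ i fun j k => lt_of_le_of_lt
      ((Nat.succ_le_of_lt k).eq_or_lt.elim (fun e => by rw [e]) fun k => (a i le_rfl _ k).le) (g1 j k).1) d).le)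
  · simpa [hi] using (g1 i hi).1
  · beta_reduce
    rw [prod_range_succ, if_neg (lt_irrefl m), prod_congr rfl fun i k => by rw [if_pos (mem_range.1 k)],
      mul_left_comm, ← Qe, q]

theorem result (lam : ℕ → ℝ) (h : ∀ k ≥ 1, 0 < lam k) (m : ℕ) : ∃ f g : ℕ → ℝ,
    (E lam m).natDegree = m ∧ (E lam m).roots = (range m).1.map f ∧
    (E lam (m + 1)).natDegree = m + 1 ∧ (E lam (m + 1)).roots = (range (m + 1)).1.map g ∧
    g 0 ≤ 0 ∧ ∀ i < m, f i ≤ g i ∧ g (i + 1) ≤ f i := by
  have R (m) : ∃ p : ℕ → ℝ, p 0 = 0 ∧ (∀ j ≤ m, ∀ i < j, p j < p i) ∧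
      ∃ c > 0, E lam m = C c * ∏ i ∈ range m, (X - C (p (i + 1))) := by
    induction m with
    | zero => exact ⟨0, rfl, by simp, 1, one_pos, by simp [E, w]⟩
    | succ m ih =>
      obtain ⟨p, p0, a, c, c0, e⟩ := ih
      obtain ⟨g, g1, g2, d⟩ := next h m p c p0 c0 a e
      obtain ⟨r, r0, r1⟩ : ∃ r : ℕ → ℝ, r 0 = 0 ∧ ∀ i, r (i + 1) = g i :=
        ⟨fun n => n.casesOn 0 g, rfl, fun _ => rfl⟩
      refine ⟨r, r0, fun j hj => ?_, by simpa only [r1] using d⟩
      induction j with
      | zero => simp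
      | succ j ih =>
        have : r (j + 1) < r j := by
          rcases j with _ | j <;> simp only [r0, r1]
          exacts [(g1 0 (by omega)).trans_eq p0, (g1 _ (by omega)).trans (g2 j (by omega))]
        exact fun i k => (Nat.le_of_lt_succ k).eq_or_lt.elim (fun e => by rwa [e]) fun k =>
          this.trans (ih (by omega) i k)
  have T (m c) (g : ℕ → ℝ) (c0 : 0 < c) : (C c * ∏ i ∈ range m, (X - C (g i))).natDegree = m ∧
      (C c * ∏ i ∈ range m, (X - C (g i))).roots = (range m).1.map g := by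
    refine ⟨by simp [natDegree_C_mul c0.ne', natDegree_prod_of_monic, monic_X_sub_C], ?_⟩
    rw [roots_C_mul _ c0.ne', ← roots_multiset_prod_X_sub_C (Multiset.map g _), Multiset.map_map]
    rfl
  obtain ⟨p, p0, a, c, c0, e⟩ := R m
  obtain ⟨g, g1, g2, d, d0, k⟩ := next h m p c p0 c0 a e
  rw [e, k]
  exact ⟨fun i => p (i + 1), g, (T _ _ _ c0).1, (T _ _ _ c0).2, (T _ _ _ d0).1, (T _ _ _ d0).2, ((g1 0 (by omega)).trans_eq p0).le,
    fun i hi => ⟨(g2 i hi).le, (g1 _ hi).le⟩⟩

end Pool.Agent.Results.MP_9d2565_co.Q1
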